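import Pool.Agent.H21.HD.BridgeC
import Pool.Agent.H21.NX.Window
import Pool.Agent.H21.NX.Conv
import Pool.Agent.H21.HD.Inst

/-!
# V8: the lower bound for the dimension, for points of arbitrary multiplicities at `K` points

`T` is the set of the large points (at most `r + 1` of them), `m i + m j ≤ d + 1` for the other
points.  The points are added one after the other, first those of `T`.  By `finrank_fat_le_add`
the dimension drops at the point `j` by at most `dim V_{m j - 1}` of the multiplicities
`m i - (d + 1 - m j)` of the points `i` present, which is `0` for `i, j ∉ T`.  The dimension for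
general points is at most the one for coordinate points, a number of monomials.  The same numbers are
the coefficients of `∏ (1 - t^{d + 1 - m i}) / (1 - t)^{r + 1}`.
-/

set_option autoImplicit false

namespace Pool.Agent.V8

open Finset MvPolynomial Pool.Agent.H18.Fat Pool.Agent.H21.NX
open Pool.Agent.H18.Ex (ell)

/-- The coefficient of `t^j` in `∏_{i ∈ I} (1 - t^{d + 1 - m i}) / (1 - t)^n`. -/
noncomputable def aC (n d : ℕ) {ι : Type} (m : ι → ℕ) (I : Finset ι) (j : ℕ) : ℤ :=
  PowerSeries.coeff j ((∏ i ∈ I, (1 - PowerSeries.X ^ (d + 1 - m i))) *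
    (PowerSeries.invOneSubPow ℤ n : PowerSeries ℤ))

theorem aC_insert (n d : ℕ) {ι : Type} [DecidableEq ι] (m : ι → ℕ) (b : ι) (s : Finset ι)
    (hb : b ∉ s) (j : ℕ) : aC n d m (insert b s) j = aC n d m s j -
      (if d + 1 - m b ≤ j then aC n d m s (j - (d + 1 - m b)) else 0) := by
  unfold aC
  rw [Finset.prod_insert hb, mul_assoc, sub_mul, one_mul, map_sub, PowerSeries.coeff_X_pow_mul']

theorem aC_empty (r d : ℕ) {ι : Type} (m : ι → ℕ) (j : ℕ) :
    aC (r + 1) d m ∅ j = ((r + j).choose r : ℤ) := by
  unfold aC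
  rw [Finset.prod_empty, one_mul, PowerSeries.invOneSubPow_val_succ_eq_mk_add_choose,
    PowerSeries.coeff_mk]

/-! ### Counting monomials -/

/-- The number of monomials of degree `j` with `α (o i) + m i ≤ d` for `i ∈ T`. -/
def cn (r d : ℕ) {ι : Type} (m : ι → ℕ) (o : ι → Fin (r + 1)) (T : Finset ι) (j : ℕ) : ℕ :=
  ((Sx (Fin (r + 1)) j).filter fun α => ∀ i ∈ T, α (o i) + m i ≤ d).card

theorem cn_empty (r d : ℕ) {ι : Type} (m : ι → ℕ) (o : ι → Fin (r + 1)) (j : ℕ) :
    cn r d m o ∅ j = (r + j).choose r := by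
  unfold cn
  rw [Finset.filter_true_of_mem (fun α _ i hi => absurd hi (Finset.notMem_empty i)), card_Sx]
  unfold ell
  congr 1
  omega

theorem cn_insert (r d : ℕ) {ι : Type} [DecidableEq ι] (m : ι → ℕ) (o : ι → Fin (r + 1)) (b : ι)
    (T : Finset ι) (hb : ∀ i ∈ T, o i ≠ o b) (hmb : m b ≤ d) (j : ℕ) :
    cn r d m o (insert b T) j + (if d + 1 - m b ≤ j then cn r d m o T (j - (d + 1 - m b)) else 0) =
      cn r d m o T j := by
  classical
  have h1 : (Sx (Fin (r + 1)) j).filter (fun α => ∀ i ∈ insert b T, α (o i) + m i ≤ d) =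
      ((Sx (Fin (r + 1)) j).filter fun α => ∀ i ∈ T, α (o i) + m i ≤ d).filter
        fun α => α (o b) + m b ≤ d := by
    rw [Finset.filter_filter]
    refine Finset.filter_congr fun α _ => ?_
    rw [Finset.forall_mem_insert, and_comm]
  have h2 := Finset.card_filter_add_card_filter_not
    (s := (Sx (Fin (r + 1)) j).filter fun α => ∀ i ∈ T, α (o i) + m i ≤ d)
    (fun α => α (o b) + m b ≤ d)
  have h3 : (((Sx (Fin (r + 1)) j).filter fun α => ∀ i ∈ T, α (o i) + m i ≤ d).filter
        fun α => ¬ (α (o b) + m b ≤ d)).card =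
      if d + 1 - m b ≤ j then cn r d m o T (j - (d + 1 - m b)) else 0 := by
    split_ifs with hj
    · symm
      unfold cn
      refine Finset.card_bij (fun α _ => Function.update α (o b) (α (o b) + (d + 1 - m b))) ?_ ?_ ?_
      · intro α hα
        rw [mem_filter, mem_Sx] at hα
        rw [mem_filter, mem_filter, mem_Sx]
        refine ⟨⟨?_, fun i hi => ?_⟩, ?_⟩
        · rw [← Finset.add_sum_erase univ _ (mem_univ (o b)), Function.update_self,
            Finset.sum_congr rfl fun x hx => Function.update_of_ne (ne_of_mem_erase hx) _ _]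
          have h4 := Finset.add_sum_erase univ α (mem_univ (o b))
          omega
        · rw [Function.update_of_ne (hb i hi)]
          exact hα.2 i hi
        · rw [Function.update_self]
          omega
      · intro α hα β hβ h
        funext x
        have h4 := congrFun h x
        by_cases hx : x = o b
        · subst hx
          rw [Function.update_self, Function.update_self] at h4
          omega
        · rw [Function.update_of_ne hx, Function.update_of_ne hx] at h4
          exact h4
      · intro β hβ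
        rw [mem_filter, mem_filter, mem_Sx] at hβ
        refine ⟨Function.update β (o b) (β (o b) - (d + 1 - m b)), ?_, ?_⟩
        · rw [mem_filter, mem_Sx]
          refine ⟨?_, fun i hi => ?_⟩
          · rw [← Finset.add_sum_erase univ _ (mem_univ (o b)), Function.update_self,
              Finset.sum_congr rfl fun x hx => Function.update_of_ne (ne_of_mem_erase hx) _ _]
            have h4 := Finset.add_sum_erase univ β (mem_univ (o b))
            omega
          · rw [Function.update_of_ne (hb i hi)]
            exact hβ.1.2 i hi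
        · funext x
          by_cases hx : x = o b
          · subst hx
            rw [Function.update_self, Function.update_self]
            omega
          · rw [Function.update_of_ne hx, Function.update_of_ne hx]
    · rw [Finset.card_eq_zero, Finset.filter_eq_empty_iff]
      intro α hα
      rw [mem_filter, mem_Sx] at hα
      have h4 := Finset.single_le_sum (fun i _ => Nat.zero_le (α i)) (mem_univ (o b))
      omega
  unfold cn at h3 ⊢
  rw [h1, ← h3]
  exact h2

theorem cn_eq (r d : ℕ) {ι : Type} [DecidableEq ι] (m : ι → ℕ) (o : ι → Fin (r + 1))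
    (T : Finset ι) : (∀ i ∈ T, ∀ j ∈ T, o i = o j → i = j) → (∀ i ∈ T, m i ≤ d) →
    ∀ j, (cn r d m o T j : ℤ) = aC (r + 1) d m T j := by
  induction T using Finset.induction_on with
  | empty =>
    intro _ _ j
    rw [cn_empty, aC_empty]
  | insert b T hb ih =>
    intro ho hm j
    have ih' := ih (fun i hi j hj => ho i (mem_insert_of_mem hi) j (mem_insert_of_mem hj))
      (fun i hi => hm i (mem_insert_of_mem hi))
    have h1 := cn_insert r d m o b T (fun i hi h => hb (by
      rw [← ho i (mem_insert_of_mem hi) b (mem_insert_self b T) h]; exact hi))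
      (hm b (mem_insert_self b T)) j
    rw [aC_insert (r + 1) d m b T hb, ← ih' j]
    by_cases hj : d + 1 - m b ≤ j
    · rw [if_pos hj] at h1 ⊢
      rw [← ih']
      omega
    · rw [if_neg hj] at h1 ⊢
      omega

/-! ### Coordinate points -/

theorem fat_coord_le (r D : ℕ) {ι : Type} (o : ι → Fin (r + 1)) (t : ι → ℕ) (T : Finset ι) :
    Module.finrank ℂ (fatForms r D (fun i => (Pi.single (o i) 1 : Fin (r + 1) → ℂ)) t) ≤
      ((Sx (Fin (r + 1)) D).filter fun α => ∀ i ∈ T, α (o i) + t i ≤ D).card := by
  classical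
  obtain ⟨A, hA⟩ : ∃ A, A = (Sx (Fin (r + 1)) D).filter fun α => ∀ i ∈ T, α (o i) + t i ≤ D :=
    ⟨_, rfl⟩
  rw [← hA]
  let L : fatForms r D (fun i => (Pi.single (o i) 1 : Fin (r + 1) → ℂ)) t →ₗ[ℂ] (A → ℂ) :=
    { toFun := fun F α => coeff (Finsupp.equivFunOnFinite.symm α.1) F.1
      map_add' := fun F G => by
        funext α
        simp
      map_smul' := fun c F => by
        funext α
        simp }
  have hL : ∀ F α, L F α = coeff (Finsupp.equivFunOnFinite.symm α.1) F.1 := fun _ _ => rfl
  have hinj : Function.Injective L := by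
    rw [← LinearMap.ker_eq_bot, LinearMap.ker_eq_bot']
    intro F hF
    apply Subtype.ext
    show F.1 = 0
    have h1 := exists_toPoly F.2.1
    rw [← h1]
    have h2 : (fun α : mons (r + 1) D => coeff α.1 F.1) = 0 := by
      funext α
      by_contra hne
      have h3 : ∀ i, α.1 (o i) + t i ≤ D := by
        intro i
        have h4 := F.2.2 i
        rw [← h1, vanishes_coord_iff] at h4
        exact h4 α hne
      have h5 : (⇑α.1 : Fin (r + 1) → ℕ) ∈ A := by
        rw [hA, mem_filter, mem_Sx]
        refine ⟨?_, fun i _ => h3 i⟩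
        have h6 := mem_mons.1 α.2
        rw [Finsupp.degree_eq_sum] at h6
        exact h6
      have h7 := congrFun hF ⟨⇑α.1, h5⟩
      rw [hL] at h7
      apply hne
      have h8 : Finsupp.equivFunOnFinite.symm (⇑α.1) = α.1 := by
        ext x
        simp
      rw [h8] at h7
      exact h7
    rw [h2, map_zero]
  have h1 := LinearMap.finrank_le_finrank_of_injective hinj
  rw [Module.finrank_fintype_fun_eq_card, Fintype.card_coe] at h1
  exact h1

/-- The shifted multiplicities of the points of `T` in degree `M - 1`. -/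
theorem gdim_shift_le (r d : ℕ) {ι : Type} (m : ι → ℕ) (o : ι → Fin (r + 1)) (T : Finset ι)
    [DecidableEq ι] (M : ℕ) (hM : 1 ≤ M) :
    gdim r (M - 1) (fun i => if i ∈ T then m i + M - (d + 1) else 0) ≤ cn r d m o T (M - 1) := by
  classical
  refine (gdim_le r (M - 1) _ (fun i => (Pi.single (o i) 1 : Fin (r + 1) → ℂ))).trans ?_
  refine (fat_coord_le r (M - 1) o _ T).trans ?_
  unfold cn
  refine Finset.card_le_card fun α hα => ?_
  rw [mem_filter, mem_Sx] at hα ⊢
  refine ⟨hα.1, fun i hi => ?_⟩
  have h1 := hα.2 i hi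
  rw [if_pos hi] at h1
  have h2 := Finset.single_le_sum (fun i _ => Nat.zero_le (α i)) (mem_univ (o i))
  omega

/-! ### Small points do not change low degrees -/

theorem aC_union (n d : ℕ) {ι : Type} [DecidableEq ι] (m : ι → ℕ) (T B : Finset ι)
    (hTB : ∀ i ∈ B, i ∉ T) (j : ℕ) (hj : ∀ i ∈ B, m i + j ≤ d) :
    aC n d m (T ∪ B) j = aC n d m T j := by
  induction B using Finset.induction_on with
  | empty => rw [Finset.union_empty]
  | insert b B hb ih =>
    have h1 : T ∪ insert b B = insert b (T ∪ B) := by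
      rw [Finset.union_insert]
    have h2 : b ∉ T ∪ B := by
      rw [mem_union, not_or]
      exact ⟨hTB b (mem_insert_self b B), hb⟩
    rw [h1, aC_insert n d m b _ h2, ih (fun i hi => hTB i (mem_insert_of_mem hi))
      (fun i hi => hj i (mem_insert_of_mem hi)), if_neg, sub_zero]
    have := hj b (mem_insert_self b B)
    omega

/-- `a_d` by the number of the monomials. -/
theorem aC_all (n d : ℕ) {ι : Type} [DecidableEq ι] (m : ι → ℕ) (T B : Finset ι)
    (hTB : ∀ i ∈ B, i ∉ T) (hm : ∀ i ∈ B, 1 ≤ m i ∧ m i ≤ d)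
    (hp : ∀ i ∈ B, ∀ j ∈ B, i ≠ j → m i + m j ≤ d + 1) :
    aC n d m (T ∪ B) d = aC n d m T d - ∑ i ∈ B, aC n d m T (m i - 1) := by
  induction B using Finset.induction_on with
  | empty => rw [Finset.union_empty, Finset.sum_empty, sub_zero]
  | insert b B hb ih =>
    have h1 : T ∪ insert b B = insert b (T ∪ B) := by
      rw [Finset.union_insert]
    have h2 : b ∉ T ∪ B := by
      rw [mem_union, not_or]
      exact ⟨hTB b (mem_insert_self b B), hb⟩
    have hmb := hm b (mem_insert_self b B)
    have h3 : d - (d + 1 - m b) = m b - 1 := by omega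
    rw [h1, aC_insert n d m b _ h2, if_pos (by omega), h3, ih
      (fun i hi => hTB i (mem_insert_of_mem hi)) (fun i hi => hm i (mem_insert_of_mem hi))
      (fun i hi j hj => hp i (mem_insert_of_mem hi) j (mem_insert_of_mem hj)),
      aC_union n d m T B (fun i hi => hTB i (mem_insert_of_mem hi)) (m b - 1) (fun i hi => by
        have h4 := hp i (mem_insert_of_mem hi) b (mem_insert_self b B)
          (fun h => hb (h ▸ hi))
        have h5 := hm i (mem_insert_of_mem hi)
        omega), Finset.sum_insert hb]
    ring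

/-! ### The lower bound -/

/-- The multiplicities of the points of `A`. -/
private def LowK_mu {k : ℕ} (m : Fin k → ℕ) (A : Finset (Fin k)) (i : Fin k) : ℕ :=
  if i ∈ A then m i else 0

private theorem LowK_step {r d k : ℕ} (m : Fin k → ℕ) (T A : Finset (Fin k)) (j : Fin k)
    (hj : j ∉ A) (hmj : 1 ≤ m j ∧ m j ≤ d) (o : Fin k → Fin (r + 1))
    (ho : ∀ i ∈ T, ∀ j ∈ T, o i = o j → i = j) (hm : ∀ i, 1 ≤ m i ∧ m i ≤ d)
    (hA : ∀ i ∈ A, i ∉ T → m i + m j ≤ d + 1)
    (p : Fin k → Fin (r + 1) → ℂ)
    (hgen : ∀ B : Finset (Fin k), Module.finrank ℂ (fatForms r (m j - 1) p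
      (fun i : Fin k => if i ∈ B then m i + m j - (d + 1) else 0)) =
        gdim r (m j - 1) (fun i : Fin k => if i ∈ B then m i + m j - (d + 1) else 0))
    (ih : aC (r + 1) d m A d ≤ (Module.finrank ℂ (fatForms r d p (LowK_mu m A)) : ℤ)) :
    aC (r + 1) d m (insert j A) d ≤
      (Module.finrank ℂ (fatForms r d p (LowK_mu m (insert j A))) : ℤ) := by
  classical
  have h0 : LowK_mu m A j = 0 := by simp [LowK_mu, hj]
  have h1 := Pool.Agent.H21.HD.finrank_fat_le_add d p (LowK_mu m A) j (d + 1 - m j)
    (by omega) h0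
  obtain ⟨C, hC⟩ : ∃ C, C = insert j A := ⟨_, rfl⟩
  have h2 : ∀ inst : DecidableEq (Fin k),
      @Function.update (Fin k) (fun _ => ℕ) inst (LowK_mu m A) j
        (d + 1 - (d + 1 - m j)) = LowK_mu m C := by
    intro inst
    rw [hC]
    funext i
    by_cases hij : i = j
    · subst hij
      rw [Function.update_self]
      simp only [LowK_mu, mem_insert, true_or, if_true]
      omega
    · rw [Function.update_of_ne hij]
      simp [LowK_mu, hij]
  have h3 : (fun i => LowK_mu m A i - (d + 1 - m j)) =
      (fun i : Fin k => if i ∈ A ∩ T then m i + m j - (d + 1) else 0) := by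
    funext i
    unfold LowK_mu
    by_cases hi : i ∈ A
    · rw [if_pos hi]
      by_cases hiT : i ∈ T
      · rw [if_pos (mem_inter.2 ⟨hi, hiT⟩)]
        omega
      · rw [if_neg (fun h => hiT (mem_inter.1 h).2)]
        have := hA i hi hiT
        omega
    · rw [if_neg hi, if_neg (fun h => hi (mem_inter.1 h).1)]
      omega
  have h4 : d - (d + 1 - m j) = m j - 1 := by omega
  rw [h3, h4, hgen (A ∩ T), h2, hC] at h1
  have h5 := gdim_shift_le r d m o (A ∩ T) (m j) hmj.1
  have h6 := cn_eq r d m o (A ∩ T)
    (fun i hi j hj => ho i (mem_inter.1 hi).2 j (mem_inter.1 hj).2) (fun i _ => (hm i).2) (m j - 1)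
  have h7 : aC (r + 1) d m A (m j - 1) = aC (r + 1) d m (A ∩ T) (m j - 1) := by
    have h8 := aC_union (r + 1) d m (A ∩ T) (A \ T) (fun i hi h => (mem_sdiff.1 hi).2
      (mem_inter.1 h).2) (m j - 1) (fun i hi => by
        have h9 := hA i (mem_sdiff.1 hi).1 (mem_sdiff.1 hi).2
        have := hm i
        omega)
    rw [← h8]
    congr 1
    ext i
    simp only [mem_union, mem_inter, mem_sdiff]
    tauto
  rw [aC_insert (r + 1) d m j A hj, if_pos (by omega), h4, h7, ← h6]
  omega

/-- The lower bound for the dimension. -/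
theorem lowC (r d k : ℕ) (m : Fin k → ℕ) (T : Finset (Fin k)) (hT : T.card ≤ r + 1)
    (hm : ∀ i, 1 ≤ m i ∧ m i ≤ d)
    (hp : ∀ i j, i ≠ j → i ∉ T → j ∉ T → m i + m j ≤ d + 1) :
    ForGeneralPoints r k fun p =>
      aC (r + 1) d m univ d ≤ (Module.finrank ℂ (fatForms r d p m) : ℤ) := by
  classical
  obtain ⟨o, ho⟩ : ∃ o : Fin k → Fin (r + 1), ∀ i ∈ T, ∀ j ∈ T, o i = o j → i = j := by
    have h1 : Fintype.card T ≤ Fintype.card (Fin (r + 1)) := by
      rw [Fintype.card_coe, Fintype.card_fin]
      exact hT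
    obtain ⟨f⟩ := Function.Embedding.nonempty_of_card_le h1
    refine ⟨fun i => if h : i ∈ T then f ⟨i, h⟩ else 0, fun i hi j hj h => ?_⟩
    beta_reduce at h
    rw [dif_pos hi, dif_pos hj] at h
    exact congrArg Subtype.val (f.injective h)
  have h1 : Gen r (Fin k) fun p => ∀ x ∈ (univ : Finset (Fin k × Finset (Fin k))),
      Module.finrank ℂ (fatForms r (m x.1 - 1) p
        (fun i : Fin k => if i ∈ x.2 then m i + m x.1 - (d + 1) else 0)) =
          gdim r (m x.1 - 1) (fun i : Fin k => if i ∈ x.2 then m i + m x.1 - (d + 1) else 0) :=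
    Gen.all univ fun x _ => gen_gdim r (m x.1 - 1) _
  refine Gen.mono h1 fun p hP => ?_
  have hgen : ∀ j : Fin k, ∀ B : Finset (Fin k), Module.finrank ℂ (fatForms r (m j - 1) p
      (fun i : Fin k => if i ∈ B then m i + m j - (d + 1) else 0)) =
        gdim r (m j - 1) (fun i : Fin k => if i ∈ B then m i + m j - (d + 1) else 0) :=
    fun j B => hP (j, B) (mem_univ _)
  have hstart : aC (r + 1) d m ∅ d ≤ (Module.finrank ℂ (fatForms r d p (LowK_mu m ∅)) : ℤ) := by
    rw [aC_empty]
    have h2 : (LowK_mu m ∅ : Fin k → ℕ) = fun _ => 0 := by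
      funext i
      simp [LowK_mu]
    rw [h2]
    have h3 : LinearMap.range (toPoly (r + 1) d) ≤ fatForms r d p (fun _ => 0) := by
      rintro _ ⟨f, rfl⟩
      exact ⟨toPoly_isHomogeneous f, fun i β hβ => absurd hβ (Nat.not_lt_zero _)⟩
    have hfin := Pool.Agent.H21.HD.BridgeCX.finite_fat (d := d) p (fun _ => 0)
    have h4 := Submodule.finrank_mono h3
    rw [LinearMap.finrank_range_of_inj (toPoly_injective (r + 1) d),
      Module.finrank_fintype_fun_eq_card, Fintype.card_coe, card_mons] at h4
    rw [Nat.add_comm r d]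
    exact_mod_cast h4
  have hT1 : ∀ A : Finset (Fin k), A ⊆ T →
      aC (r + 1) d m A d ≤ (Module.finrank ℂ (fatForms r d p (LowK_mu m A)) : ℤ) := by
    intro A
    induction A using Finset.induction_on with
    | empty => exact fun _ => hstart
    | insert j A hj ih =>
      intro hA
      refine LowK_step m T A j hj (hm j) o ho hm (fun i hi hiT =>
        absurd (hA (mem_insert_of_mem hi)) hiT) p (hgen j)
        (ih fun i hi => hA (mem_insert_of_mem hi))
  have hT2 : ∀ B : Finset (Fin k), (∀ i ∈ B, i ∉ T) →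
      aC (r + 1) d m (T ∪ B) d ≤
        (Module.finrank ℂ (fatForms r d p (LowK_mu m (T ∪ B))) : ℤ) := by
    intro B
    induction B using Finset.induction_on with
    | empty =>
      intro _
      rw [Finset.union_empty]
      exact hT1 T (Finset.Subset.refl T)
    | insert j B hj ih =>
      intro hB
      have hjT := hB j (mem_insert_self j B)
      have h2 : j ∉ T ∪ B := by
        rw [mem_union, not_or]
        exact ⟨hjT, hj⟩
      rw [Finset.union_insert]
      refine LowK_step m T (T ∪ B) j h2 (hm j) o ho hm (fun i hi hiT => ?_) p (hgen j)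
        (ih fun i hi => hB i (mem_insert_of_mem hi))
      exact hp i j (fun h => h2 (h ▸ hi)) hiT hjT
  have h2 := hT2 Tᶜ fun i hi => mem_compl.1 hi
  rw [Finset.union_compl] at h2
  have h3 : LowK_mu m univ = m := by
    funext i
    simp [LowK_mu]
  rw [h3] at h2
  exact h2

/-! ### In terms of `fro` -/

theorem fro_eq_aC (r d : ℕ) {k : ℕ} (m : Fin k → ℕ) (I : Finset (Fin k)) (j : ℕ) :
    Pool.Agent.H21.HD.fro r (fun i => d + 1 - m i) I j = aC (r + 1) d m I j := by
  induction I using Finset.induction_on generalizing j with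
  | empty =>
    rw [aC_empty]
    unfold Pool.Agent.H21.HD.fro
    simp only [Finset.powerset_empty, Finset.sum_singleton, Finset.card_empty, pow_zero,
      Finset.sum_empty, Nat.zero_le, if_true, Nat.sub_zero, one_mul]
  | insert b s hb ih =>
    rw [Pool.Agent.H21.HD.fro_insert' r (fun i => d + 1 - m i) s b hb j, ih,
      aC_insert (r + 1) d m b s hb]
    congr 1
    by_cases h : d + 1 - m b ≤ j
    · rw [if_pos h, if_pos h, ih]
    · rw [if_neg h, if_neg h]

/-- The lower bound for the dimension: `dim V_d ≥ a_d`. -/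
theorem lowK (r d k : ℕ) (_hr : 1 ≤ r) (m : Fin k → ℕ) (I : Finset (Fin k)) (hI : I.card ≤ r)
    (hm : ∀ i, 1 ≤ m i ∧ m i ≤ d)
    (hp : ∀ i j, i ≠ j → i ∉ I → j ∉ I → m i + m j ≤ d + 1) :
    ForGeneralPoints r k fun p =>
      Pool.Agent.H21.HD.fro r (fun i => d + 1 - m i) univ d ≤
        (Module.finrank ℂ (fatForms r d p m) : ℤ) := by
  rw [fro_eq_aC]
  exact lowC r d k m I (hI.trans (Nat.le_succ r)) hm hp

end Pool.Agent.V8
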