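import Pool.Agent.V8.Bridge
import Pool.Agent.H21.HD.Inst

/-!
# V8, the end: the expected dimension and the numbers `NJ`
-/

set_option autoImplicit false

namespace Pool.Agent.V8

open Finset Pool.Agent.H21.HD

private theorem Fro_coeff_one_mul (F : PowerSeries ℤ) (a k : ℕ) :
    PowerSeries.coeff k (PowerSeries.X ^ a * F) = if a ≤ k then PowerSeries.coeff (k - a) F else 0 :=
  PowerSeries.coeff_X_pow_mul' F a k

/-- `NJ` as a coefficient. -/
theorem coeff_NJ (d : ℕ) {K : ℕ} (J : Fin K → ℕ) (n k : ℕ) (hK : K < n) :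
    PowerSeries.coeff k ((∏ i, (1 - PowerSeries.X ^ (d + 1 - J i))) *
      (PowerSeries.invOneSubPow ℤ n : PowerSeries ℤ)) = (NJ d J n k : ℤ) := by
  classical
  obtain ⟨q, hq⟩ : ∃ q, n = q + 1 + K := ⟨n - 1 - K, by omega⟩
  have h1 : ∀ i : Fin K, (1 - (PowerSeries.X : PowerSeries ℤ) ^ (d + 1 - J i)) =
      (1 - PowerSeries.X) * ∑ b ∈ range (d + 1 - J i), (PowerSeries.X : PowerSeries ℤ) ^ b := by
    intro i
    exact (mul_neg_geom_sum (PowerSeries.X : PowerSeries ℤ) (d + 1 - J i)).symm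
  have h2 : (∏ i : Fin K, (1 - (PowerSeries.X : PowerSeries ℤ) ^ (d + 1 - J i))) =
      (1 - PowerSeries.X) ^ K *
        ∑ b ∈ BxJ d J, (PowerSeries.X : PowerSeries ℤ) ^ (∑ i, b i) := by
    rw [Finset.prod_congr rfl fun i _ => h1 i, Finset.prod_mul_distrib, Finset.prod_const,
      Finset.card_univ, Fintype.card_fin, Finset.prod_univ_sum]
    congr 1
    unfold BxJ
    refine Finset.sum_congr rfl fun b _ => ?_
    rw [Finset.prod_pow_eq_pow_sum]
  have h3 : (1 - (PowerSeries.X : PowerSeries ℤ)) ^ K *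
      (PowerSeries.invOneSubPow ℤ n : PowerSeries ℤ) =
        (PowerSeries.invOneSubPow ℤ (q + 1) : PowerSeries ℤ) := by
    rw [hq]
    exact PowerSeries.one_sub_pow_mul_invOneSubPow_val_add_eq_invOneSubPow_val ℤ (q + 1) K
  rw [h2, mul_assoc, mul_comm (∑ b ∈ BxJ d J, _), ← mul_assoc, h3, Finset.mul_sum, map_sum]
  unfold NJ
  rw [Finset.sum_filter, Nat.cast_sum]
  refine Finset.sum_congr rfl fun b _ => ?_
  rw [mul_comm, Fro_coeff_one_mul]
  split_ifs with h
  · rw [PowerSeries.invOneSubPow_val_succ_eq_mk_add_choose, PowerSeries.coeff_mk,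
      Nat.multichoose_eq]
    have e1 : n - K = q + 1 := by omega
    rw [e1, show q + 1 + (k - ∑ i, b i) - 1 = q + (k - ∑ i, b i) by omega, ← Nat.choose_symm_add]
  · rfl

/-- `fro` as a coefficient. -/
theorem coeff_fro {P : Type} [DecidableEq P] (r : ℕ) (e : P → ℕ) (I : Finset P) (j : ℕ) :
    PowerSeries.coeff j ((∏ i ∈ I, (1 - PowerSeries.X ^ e i)) *
      (PowerSeries.invOneSubPow ℤ (r + 1) : PowerSeries ℤ)) = fro r e I j := by
  induction I using Finset.induction_on generalizing j with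
  | empty =>
    unfold fro
    simp only [Finset.powerset_empty, Finset.sum_singleton, Finset.card_empty, pow_zero,
      Finset.sum_empty, Nat.zero_le, if_true, Nat.sub_zero, one_mul, Finset.prod_empty]
    rw [PowerSeries.invOneSubPow_val_succ_eq_mk_add_choose, PowerSeries.coeff_mk]
  | insert b s hb ih =>
    rw [fro_insert' r e s b hb j, ← ih, Finset.prod_insert hb, mul_assoc, sub_mul, one_mul, map_sub,
      Fro_coeff_one_mul]
    congr 1
    by_cases h : e b ≤ j
    · rw [if_pos h, if_pos h, ih]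
    · rw [if_neg h, if_neg h]

/-- `fro` of a set of large points is `NJ`. -/
theorem fro_I (r d k : ℕ) (m : Fin k → ℕ) (I : Finset (Fin k)) (hI : I.card ≤ r) (j : ℕ) :
    fro r (fun i => d + 1 - m i) I j =
      (NJ d (fun i : Fin I.card => m (I.equivFin.symm i)) (r + 1) j : ℤ) := by
  rw [← coeff_NJ d _ (r + 1) j (by omega), ← coeff_fro]
  congr 2
  have h1 : ∏ i : Fin I.card, (1 - (PowerSeries.X : PowerSeries ℤ) ^ (d + 1 - m (I.equivFin.symm i))) =
      ∏ i : I, (1 - (PowerSeries.X : PowerSeries ℤ) ^ (d + 1 - m i)) :=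
    Equiv.prod_comp I.equivFin.symm fun i : I => (1 - (PowerSeries.X : PowerSeries ℤ) ^ (d + 1 - m i))
  rw [h1]
  exact (Finset.prod_coe_sort I fun i => (1 - (PowerSeries.X : PowerSeries ℤ) ^ (d + 1 - m i))).symm

private theorem Fro_pairs (r d k : ℕ) (m : Fin k → ℕ) (I : Finset (Fin k))
    (hm : ∀ i, 1 ≤ m i ∧ m i ≤ d)
    (hp : ∀ i j, i ≠ j → i ∉ I → j ∉ I → m i + m j ≤ d + 1) (A : Finset (Fin k)) :
    Disjoint I A → ∀ j ≤ d, fro r (fun i => d + 1 - m i) (I ∪ A) j =
      fro r (fun i => d + 1 - m i) I j -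
        ∑ i ∈ A, if d + 1 - m i ≤ j then fro r (fun i => d + 1 - m i) I (j - (d + 1 - m i))
          else 0 := by
  induction A using Finset.induction_on with
  | empty =>
    intro _ j _
    rw [Finset.union_empty, Finset.sum_empty, sub_zero]
  | insert b s hb ih =>
    intro hdis j hj
    rw [Finset.disjoint_insert_right] at hdis
    obtain ⟨hbI, hdis⟩ := hdis
    have ih' := ih hdis
    have hb' : b ∉ I ∪ s := by
      rw [Finset.mem_union, not_or]
      exact ⟨hbI, hb⟩
    rw [Finset.union_insert, fro_insert' r _ _ b hb' j, ih' j hj, Finset.sum_insert hb]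
    have h1 : (if d + 1 - m b ≤ j then fro r (fun i => d + 1 - m i) (I ∪ s) (j - (d + 1 - m b))
        else 0) = if d + 1 - m b ≤ j then fro r (fun i => d + 1 - m i) I (j - (d + 1 - m b))
        else 0 := by
      by_cases h : d + 1 - m b ≤ j
      · rw [if_pos h, if_pos h, ih' _ (by omega)]
        have h2 : (∑ i ∈ s, if d + 1 - m i ≤ j - (d + 1 - m b) then
            fro r (fun i => d + 1 - m i) I (j - (d + 1 - m b) - (d + 1 - m i)) else 0) = 0 := by
          apply Finset.sum_eq_zero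
          intro i hi
          rw [if_neg]
          have h3 := hp i b (fun h4 => hb (h4 ▸ hi)) (fun h4 => Finset.disjoint_left.1 hdis h4 hi) hbI
          have h5 := (hm b).2
          omega
        rw [h2, sub_zero]
      · rw [if_neg h, if_neg h]
    rw [h1]
    ring

/-- The expected dimension: `fro` in terms of `NJ`. -/
theorem fro_eq_NJ (r d k : ℕ) (m : Fin k → ℕ) (I : Finset (Fin k)) (hI : I.card ≤ r)
    (hm : ∀ i, 1 ≤ m i ∧ m i ≤ d)
    (hp : ∀ i j, i ≠ j → i ∉ I → j ∉ I → m i + m j ≤ d + 1) :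
    fro r (fun i => d + 1 - m i) univ d =
      (NJ d (fun i : Fin I.card => m (I.equivFin.symm i)) (r + 1) d : ℤ) -
        ∑ i ∈ Iᶜ, (NJ d (fun i : Fin I.card => m (I.equivFin.symm i)) (r + 1) (m i - 1) : ℤ) := by
  have h1 := Fro_pairs r d k m I hm hp Iᶜ disjoint_compl_right d le_rfl
  rw [Finset.union_compl] at h1
  rw [h1, fro_I r d k m I hI d]
  congr 1
  refine Finset.sum_congr rfl fun i _ => ?_
  have h2 := hm i
  rw [if_pos (by omega), fro_I r d k m I hI, show d - (d + 1 - m i) = m i - 1 by omega]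

end Pool.Agent.V8
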