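import Pool.Agent.V8.End.Defs
import Pool.Agent.V8.End.Fro
import Pool.Agent.V8.End.Low
import Pool.Agent.H21.NX.MaxGM
import Pool.Agent.H74.V7.Fin

/-!
# V8, the end: the exact dimension
-/

set_option autoImplicit false

namespace Pool.Agent.V8

open Finset MvPolynomial Pool.Agent.H18.Fat Pool.Agent.H21.HD Pool.Agent.H21.NX
open Pool.Agent.H18.Ex (Kind ell GM)
open Pool.Agent.H21.NX.GenBX (gdim_attained)

theorem NJ_zero (d : ℕ) {K : ℕ} (J : Fin K → ℕ) (hJ : ∀ i, J i ≤ d) (n : ℕ) : NJ d J n 0 = 1 := by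
  classical
  unfold NJ
  rw [Finset.sum_eq_single (fun _ => 0)]
  · simp
  · intro b hb hne
    exfalso
    apply hne
    rw [Finset.mem_filter] at hb
    funext i
    have := Finset.single_le_sum (f := b) (fun _ _ => Nat.zero_le _) (Finset.mem_univ i)
    have h2 := hb.2
    omega
  · intro h
    exfalso
    apply h
    rw [Finset.mem_filter]
    exact ⟨(dn_BxJ hJ).zero, by simp⟩

/-- One `r₀` for all `J` with at most `K` values. -/
private theorem Fin_unif (d K : ℕ)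
    (hk : ∀ K' ≤ K, ∀ J : Fin K' → ℕ, (∀ i, 1 ≤ J i ∧ J i ≤ d) → ∃ r₀ : ℕ, ∀ r, r₀ ≤ r →
      ∀ S : Multiset ℕ, (∀ m ∈ S, 1 ≤ m ∧ 2 * m ≤ d + 1) → KillAt d J r S) :
    ∃ r₀ : ℕ, ∀ r, r₀ ≤ r → ∀ K' ≤ K, ∀ J : Fin K' → ℕ, (∀ i, 1 ≤ J i ∧ J i ≤ d) →
      ∀ S : Multiset ℕ, (∀ m ∈ S, 1 ≤ m ∧ 2 * m ≤ d + 1) → KillAt d J r S := by
  classical
  have h1 : ∀ K' : ℕ, ∀ J : Fin K' → ℕ, ∃ r₀ : ℕ, K' ≤ K → (∀ i, 1 ≤ J i ∧ J i ≤ d) →
      ∀ r, r₀ ≤ r → ∀ S : Multiset ℕ, (∀ m ∈ S, 1 ≤ m ∧ 2 * m ≤ d + 1) → KillAt d J r S := by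
    intro K' J
    by_cases h : K' ≤ K ∧ ∀ i, 1 ≤ J i ∧ J i ≤ d
    · obtain ⟨r₀, h2⟩ := hk K' h.1 J h.2
      exact ⟨r₀, fun _ _ => h2⟩
    · exact ⟨0, fun h2 h3 => absurd ⟨h2, h3⟩ h⟩
  choose f hf using h1
  refine ⟨∑ K' ∈ range (K + 1), ∑ J ∈ Fintype.piFinset (fun _ : Fin K' => range (d + 1)), f K' J,
    fun r hr K' hK' J hJ => hf K' J hK' hJ r (le_trans ?_ hr)⟩
  have h2 : f K' J ≤ ∑ J ∈ Fintype.piFinset (fun _ : Fin K' => range (d + 1)), f K' J :=
    Finset.single_le_sum (f := fun J => f K' J) (fun _ _ => Nat.zero_le _) (by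
      rw [Fintype.mem_piFinset]
      intro i
      rw [mem_range]
      have := (hJ i).2
      omega)
  exact h2.trans (Finset.single_le_sum
    (f := fun K' => ∑ J ∈ Fintype.piFinset (fun _ : Fin K' => range (d + 1)), f K' J)
    (fun _ _ => Nat.zero_le _) (mem_range.2 (by omega)))

/-- EN5: the exact dimension. -/
theorem many_large (d K : ℕ)
    (hk : ∀ K' ≤ K, ∀ J : Fin K' → ℕ, (∀ i, 1 ≤ J i ∧ J i ≤ d) → ∃ r₀ : ℕ, ∀ r, r₀ ≤ r →
      ∀ S : Multiset ℕ, (∀ m ∈ S, 1 ≤ m ∧ 2 * m ≤ d + 1) → KillAt d J r S) :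
    ∃ r₀ : ℕ, ∀ r, r₀ ≤ r → ∀ (k : ℕ) (m : Fin k → ℕ), (∀ i, 1 ≤ m i ∧ m i ≤ d) →
      (univ.filter fun i => d + 1 < 2 * m i).card ≤ K →
      ForGeneralPoints r k fun p => (Module.finrank ℂ (fatForms r d p m) : ℤ) =
        max (fro r (fun i => d + 1 - m i) univ d) 0 := by
  classical
  obtain ⟨r₀, h₀⟩ := Fin_unif d K hk
  refine ⟨r₀ + K + 1, fun r hr k m hm hcard => ?_⟩
  rcases Nat.eq_zero_or_pos d with hd | hd
  · -- no points
    subst hd
    have hk0 : k = 0 := by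
      by_contra h
      have h1 := hm ⟨0, by omega⟩
      omega
    subst hk0
    have hg : ForGeneralPoints r 0 fun p => Module.finrank ℂ (fatForms r 0 p m) = gdim r 0 m :=
      gen_gdim r 0 m
    refine hg.mono fun p hp => ?_
    rw [hp, gdim_empty]
    have h1 : (univ : Finset (Fin 0)) = ∅ := rfl
    rw [h1]
    unfold fro
    simp
  obtain ⟨I, hI⟩ : ∃ I : Finset (Fin k), I = univ.filter fun i => d + 1 < 2 * m i := ⟨_, rfl⟩
  rw [← hI] at hcard
  have hnI : ∀ i, i ∉ I → 2 * m i ≤ d + 1 := by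
    intro i hi
    rw [hI, mem_filter, not_and, not_lt] at hi
    exact hi (mem_univ i)
  have hp : ∀ i j, i ≠ j → i ∉ I → j ∉ I → m i + m j ≤ d + 1 := by
    intro i j _ hi hj
    have := hnI i hi
    have := hnI j hj
    omega
  obtain ⟨X, hX⟩ : ∃ X : ℕ, X = (fro r (fun i => d + 1 - m i) univ d).toNat := ⟨_, rfl⟩
  obtain ⟨J, hJ⟩ : ∃ J : Fin I.card → ℕ, J = fun i => m (I.equivFin.symm i) := ⟨_, rfl⟩
  have hJ1 : ∀ i, 1 ≤ J i ∧ J i ≤ d := by
    intro i
    rw [hJ]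
    exact hm _
  have hfro := fro_eq_NJ r d k m I (by omega) hm hp
  rw [← hJ] at hfro
  obtain ⟨S, hS⟩ : ∃ S : Multiset ℕ, S = Iᶜ.val.map m + Multiset.replicate X 1 := ⟨_, rfl⟩
  have hkill := h₀ r (by omega) I.card hcard J hJ1 S (by
    intro x hx
    rw [hS, Multiset.mem_add] at hx
    rcases hx with hx | hx
    · obtain ⟨i, hi, rfl⟩ := Multiset.mem_map.1 hx
      have hi' : i ∈ Iᶜ := hi
      rw [Finset.mem_compl] at hi'
      exact ⟨(hm i).1, hnI i hi'⟩
    · rw [Multiset.eq_of_mem_replicate hx]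
      omega)
  have hGM := hkill (by
    rw [hS, Multiset.map_add, Multiset.sum_add, Multiset.map_replicate, Multiset.sum_replicate,
      Multiset.map_map, smul_eq_mul]
    have h1 : ((Iᶜ.val.map ((fun m => NJ d J (r + 1) (m - 1)) ∘ m)).sum : ℕ) =
        ∑ i ∈ Iᶜ, NJ d J (r + 1) (m i - 1) := rfl
    rw [h1, Nat.sub_self, NJ_zero d J (fun i => (hJ1 i).2), mul_one]
    have h2 : ((∑ i ∈ Iᶜ, NJ d J (r + 1) (m i - 1) : ℕ) : ℤ) =
        ∑ i ∈ Iᶜ, (NJ d J (r + 1) (m i - 1) : ℤ) := Nat.cast_sum _ _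
    omega)
  have hGM' : GM (Sx (Fin (r + 1)) d) ((univ.val.map fun i => Kind.free (m i)) +
      Multiset.replicate X (Kind.free 1)) := by
    have h1 : ((univ : Finset (Fin I.card)).val.map J).map Kind.free =
        I.val.map fun i => (Kind.free (m i) : Kind (Fin (r + 1))) := by
      rw [Multiset.map_map, hJ]
      have h2 : (univ : Finset (Fin I.card)).val.map (fun i => (I.equivFin.symm i : Fin k)) =
          I.val := by
        have h3 := Multiset.map_univ_val_equiv I.equivFin.symm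
        have h4 : (univ : Finset (Fin I.card)).val.map (fun i => (I.equivFin.symm i : Fin k)) =
            ((univ : Finset (Fin I.card)).val.map I.equivFin.symm).map Subtype.val := by
          rw [Multiset.map_map]
          rfl
        rw [h4, h3, Finset.univ_eq_attach]
        exact Multiset.attach_map_val I.val
      conv_rhs => rw [← h2]
      rw [Multiset.map_map]
      rfl
    have h2 : S.map Kind.free = (Iᶜ.val.map fun i => (Kind.free (m i) : Kind (Fin (r + 1)))) +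
        Multiset.replicate X (Kind.free 1) := by
      rw [hS, Multiset.map_add, Multiset.map_map, Multiset.map_replicate]
      rfl
    have h3 : (univ : Finset (Fin k)).val = I.val + Iᶜ.val := by
      have h4 : (univ : Finset (Fin k)) = I.disjUnion Iᶜ disjoint_compl_right := by
        rw [Finset.disjUnion_eq_union, Finset.union_compl]
      rw [h4]
      rfl
    rw [h3, Multiset.map_add, ← h1, add_assoc, ← h2]
    exact hGM
  obtain ⟨p₀, hp₀⟩ := MaxGMX.special r k d X m hGM'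
  refine ((general_finrank_le d p₀ m).and (lowK r d k (by omega) m I (by omega) hm hp)).mono ?_
  rintro p ⟨hp1, hp2⟩
  omega

end Pool.Agent.V8
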