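import Pool.Agent.V8.Bridge
import Pool.Agent.V8.F1
import Pool.Agent.H21.NX.Conv

/-!
# V8, the end: the numbers `NJ`
-/

set_option autoImplicit false

namespace Pool.Agent.V8

open Finset MvPolynomial Pool.Agent.H18.Fat Pool.Agent.H21.HD Pool.Agent.H21.NX
open Pool.Agent.H54.V7 Pool.Agent.V7 Pool.Agent.V7.ST
open Pool.Agent.H18.Ex (Kind ell GM)

/-- EN3a: the bounded exponents are exponents. -/
theorem NJ_le_ell (d : ℕ) {K : ℕ} (J : Fin K → ℕ) (r m : ℕ) (hK : K ≤ r) (hm : 1 ≤ m) :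
    NJ d J (r + 1) (m - 1) ≤ ell r m := by
  have h1 : (Sx (Fin (r + 1)) (m - 1)).card = ell r m := by
    rw [card_Sx, Nat.sub_add_cancel hm]
  rw [← h1, ← bJ_BxJ d J 1, ← card_ExB (BxJ d J) Nat.one_pos (by omega)]
  refine card_le_card fun a ha => ?_
  rw [mem_ExB, critA_mem_Ex] at ha
  exact mem_Sx.2 ha.1

/-- One step of `multichoose`. -/
theorem mul_multichoose_succ (n k : ℕ) (hn : 1 ≤ n) :
    (k + 1) * Nat.multichoose n (k + 1) = (n + k) * Nat.multichoose n k := by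
  rw [Nat.multichoose_eq, Nat.multichoose_eq]
  have h1 := Nat.add_one_mul_choose_eq (n + k - 1) k
  have h2 : n + k - 1 + 1 = n + k := by omega
  have h3 : n + (k + 1) - 1 = n + k := by omega
  rw [h2] at h1
  rw [h3, h1, mul_comm]

/-- The term of the exponent `0`. -/
theorem NJ_ge_multichoose (d : ℕ) {K : ℕ} (J : Fin K → ℕ) (hJ : ∀ i, J i ≤ d) (n k : ℕ) :
    Nat.multichoose (n - K) k ≤ NJ d J n k := by
  unfold NJ
  have h0 : (fun _ : Fin K => 0) ∈ (BxJ d J).filter (fun b => ∑ i, b i ≤ k) := by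
    rw [mem_filter]
    refine ⟨(dn_BxJ hJ).zero, ?_⟩
    simp
  have h1 := single_le_sum (f := fun b : Fin K → ℕ => Nat.multichoose (n - K) (k - ∑ i, b i))
    (fun b _ => Nat.zero_le _) h0
  simpa using h1

/-- The ratio of the numbers of exponents in `n - K` and in `n` variables. -/
theorem multichoose_ratio (n K : ℕ) (hK : K < n) (k : ℕ) :
    (1 - (K : ℝ) / n) ^ k * (Nat.multichoose n k : ℝ) ≤ (Nat.multichoose (n - K) k : ℝ) := by
  have hn : (0 : ℝ) < n := by exact_mod_cast (show 0 < n by omega)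
  have hKn : (K : ℝ) / n ≤ 1 := by
    rw [div_le_one hn]
    exact_mod_cast hK.le
  have hx : (0 : ℝ) ≤ 1 - (K : ℝ) / n := by linarith
  induction k with
  | zero => simp
  | succ k ih =>
    have h1 : ((k : ℝ) + 1) * (Nat.multichoose n (k + 1) : ℝ) =
        ((n : ℝ) + k) * (Nat.multichoose n k : ℝ) := by
      exact_mod_cast mul_multichoose_succ n k (by omega)
    have h2 : ((k : ℝ) + 1) * (Nat.multichoose (n - K) (k + 1) : ℝ) =
        (((n - K : ℕ) : ℝ) + k) * (Nat.multichoose (n - K) k : ℝ) := by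
      exact_mod_cast mul_multichoose_succ (n - K) k (by omega)
    rw [Nat.cast_sub hK.le] at h2
    have hk : (0 : ℝ) < (k : ℝ) + 1 := by positivity
    have h3 : (1 - (K : ℝ) / n) * ((n : ℝ) + k) ≤ (n : ℝ) - K + k := by
      have h4 : (K : ℝ) / n * n = K := by field_simp
      have h5 : (0 : ℝ) ≤ (K : ℝ) / n * k := by positivity
      nlinarith
    have h6 : (0 : ℝ) ≤ (n : ℝ) - K + k := by
      have : (K : ℝ) ≤ n := by exact_mod_cast hK.le
      have : (0 : ℝ) ≤ k := Nat.cast_nonneg k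
      linarith
    refine le_of_mul_le_mul_left ?_ hk
    calc ((k : ℝ) + 1) * ((1 - (K : ℝ) / n) ^ (k + 1) * (Nat.multichoose n (k + 1) : ℝ))
        = (1 - (K : ℝ) / n) ^ k * (1 - (K : ℝ) / n) *
            (((k : ℝ) + 1) * (Nat.multichoose n (k + 1) : ℝ)) := by ring
      _ = ((1 - (K : ℝ) / n) * ((n : ℝ) + k)) *
            ((1 - (K : ℝ) / n) ^ k * (Nat.multichoose n k : ℝ)) := by rw [h1]; ring
      _ ≤ ((n : ℝ) - K + k) * ((1 - (K : ℝ) / n) ^ k * (Nat.multichoose n k : ℝ)) :=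
          mul_le_mul_of_nonneg_right h3 (mul_nonneg (pow_nonneg hx k) (Nat.cast_nonneg _))
      _ ≤ ((n : ℝ) - K + k) * (Nat.multichoose (n - K) k : ℝ) :=
          mul_le_mul_of_nonneg_left ih h6
      _ = ((k : ℝ) + 1) * (Nat.multichoose (n - K) (k + 1) : ℝ) := h2.symm

/-- EN3b: asymptotically there is no difference. -/
theorem NJ_ge (d : ℕ) {K : ℕ} (J : Fin K → ℕ) (hJ : ∀ i, J i ≤ d) (δ : ℝ) (hδ : 0 < δ) :
    ∃ r₀ : ℕ, ∀ r, r₀ ≤ r → ∀ m, 1 ≤ m → m ≤ d + 1 →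
      (1 - δ) * (ell r m : ℝ) ≤ (NJ d J (r + 1) (m - 1) : ℝ) := by
  obtain ⟨N, hN⟩ := exists_nat_gt ((d : ℝ) * K / δ)
  refine ⟨N + K, fun r hr m hm hmd => ?_⟩
  obtain ⟨k, rfl⟩ : ∃ k, m = k + 1 := ⟨m - 1, by omega⟩
  rw [Nat.add_sub_cancel]
  have hell : ell r (k + 1) = Nat.multichoose (r + 1) k := by
    unfold ell
    rw [Nat.multichoose_eq, show k + 1 + r - 1 = r + k by omega, show r + 1 + k - 1 = r + k by omega]
    exact Nat.choose_symm_add
  have h1 := multichoose_ratio (r + 1) K (by omega) k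
  have h2 : (Nat.multichoose (r + 1 - K) k : ℝ) ≤ (NJ d J (r + 1) k : ℝ) := by
    exact_mod_cast NJ_ge_multichoose d J hJ (r + 1) k
  rw [hell]
  refine le_trans ?_ (h1.trans h2)
  refine mul_le_mul_of_nonneg_right ?_ (Nat.cast_nonneg _)
  have hr0 : (0 : ℝ) < ((r + 1 : ℕ) : ℝ) := by exact_mod_cast Nat.succ_pos r
  have hx : (K : ℝ) / ((r + 1 : ℕ) : ℝ) ≤ 1 := by
    rw [div_le_one hr0]
    exact_mod_cast (show K ≤ r + 1 by omega)
  have h3 := one_add_mul_le_pow (show (-2 : ℝ) ≤ -((K : ℝ) / ((r + 1 : ℕ) : ℝ)) by linarith) k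
  have h4 : (k : ℝ) * ((K : ℝ) / ((r + 1 : ℕ) : ℝ)) ≤ δ := by
    have h5 : (k : ℝ) ≤ d := by exact_mod_cast (show k ≤ d by omega)
    have h6 : (d : ℝ) * K / δ < ((r + 1 : ℕ) : ℝ) :=
      hN.trans_le (by exact_mod_cast (show N ≤ r + 1 by omega))
    rw [div_lt_iff₀ hδ] at h6
    have h7 : (k : ℝ) * K ≤ d * K := mul_le_mul_of_nonneg_right h5 (Nat.cast_nonneg K)
    rw [← mul_div_assoc, div_le_iff₀ hr0]
    nlinarith
  have h8 : (1 : ℝ) - (K : ℝ) / ((r + 1 : ℕ) : ℝ) = 1 + -((K : ℝ) / ((r + 1 : ℕ) : ℝ)) := by ring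
  rw [h8]
  linarith

end Pool.Agent.V8
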