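import Pool.Agent.V8.End.Defs
import Pool.Agent.V8.End.Num
import Pool.Agent.H74.V7.Fin

/-!
# V8, the end: from the critical density to all multisets
-/

set_option autoImplicit false

namespace Pool.Agent.V8

open Finset MvPolynomial Pool.Agent.H18.Fat Pool.Agent.H21.HD Pool.Agent.H21.NX
open Pool.Agent.H18.Ex (Kind ell GM)

private theorem Kill_sub {f : ℕ → ℕ} {ℓ : ℕ} {t : ℝ} (ht : 0 ≤ t) (Q : Multiset ℕ) :
    (∀ m ∈ Q, f m ≤ ℓ) → t < (((Q.map f).sum : ℕ) : ℝ) →
    ∃ T ≤ Q, (((T.map f).sum : ℕ) : ℝ) ≤ t ∧ t < (((T.map f).sum : ℕ) : ℝ) + ℓ := by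
  induction Q using Multiset.induction_on with
  | empty =>
    intro _ h
    rw [Multiset.map_zero, Multiset.sum_zero, Nat.cast_zero] at h
    linarith
  | cons a s ih =>
    intro hf h
    by_cases h1 : t < (((s.map f).sum : ℕ) : ℝ)
    · obtain ⟨T, hT, h2, h3⟩ := ih (fun i hi => hf i (Multiset.mem_cons_of_mem hi)) h1
      exact ⟨T, hT.trans (Multiset.le_cons_self s a), h2, h3⟩
    · refine ⟨s, Multiset.le_cons_self s a, not_lt.1 h1, lt_of_lt_of_le h ?_⟩
      rw [Multiset.map_cons, Multiset.sum_cons, Nat.cast_add, add_comm]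
      have : ((f a : ℕ) : ℝ) ≤ ℓ := by exact_mod_cast hf a (Multiset.mem_cons_self a s)
      linarith

private theorem Kill_mono {d K : ℕ} {J : Fin K → ℕ} {r : ℕ} {S S' : Multiset ℕ} (h : S' ≤ S)
    (h' : KillAt d J r S')
    (hs : NJ d J (r + 1) d ≤ (S'.map fun m => NJ d J (r + 1) (m - 1)).sum) :
    KillAt d J r S := by
  intro _
  exact Pool.Agent.H18.Ex.GM.mono (add_le_add le_rfl (Multiset.map_le_map h)) (h' hs)

private theorem Kill_sum_le {f g : ℕ → ℕ} {δ : ℝ} (T : Multiset ℕ)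
    (h : ∀ m ∈ T, (1 - δ) * (f m : ℝ) ≤ (g m : ℝ)) :
    (1 - δ) * (((T.map f).sum : ℕ) : ℝ) ≤ (((T.map g).sum : ℕ) : ℝ) := by
  induction T using Multiset.induction_on with
  | empty => simp
  | cons a s ih =>
    have h1 := ih fun m hm => h m (Multiset.mem_cons_of_mem hm)
    have h2 := h a (Multiset.mem_cons_self a s)
    rw [Multiset.map_cons, Multiset.map_cons, Multiset.sum_cons, Multiset.sum_cons, Nat.cast_add,
      Nat.cast_add, mul_add]
    linarith

/-- EN4. -/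
theorem kill_all (M : ℕ) (hM : 1 ≤ M) {K : ℕ} (J : Fin K → ℕ)
    (hJ : ∀ i, 1 ≤ J i ∧ J i ≤ 2 * M - 1)
    (hcr : ∃ ε : ℝ, 0 < ε ∧ ∃ r₀ : ℕ, ∀ r, r₀ ≤ r → ∀ S : Multiset ℕ, (∀ m ∈ S, 1 ≤ m ∧ m ≤ M) →
      |((S.count M * ell r M : ℕ) : ℝ) - ((2 * M - 1 + r).choose r : ℝ)| ≤
        ε * ((2 * M - 1 + r).choose r : ℝ) →
      ((((S.filter fun m => m < M).map (ell r)).sum : ℕ) : ℝ) ≤
        ε * ((2 * M - 1 + r).choose r : ℝ) → KillAt (2 * M - 1) J r S)
    (hLK : ∀ η : ℝ, 0 < η → ∃ r₀ : ℕ, ∀ r, r₀ ≤ r → ∀ S : Multiset ℕ, (∀ m ∈ S, 1 ≤ m ∧ m ≤ M) →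
      ((S.count M * ell r M : ℕ) : ℝ) ≤ (1 - η) * ((2 * M - 1 + r).choose r : ℝ) →
      KillAt (2 * M - 1) J r S) :
    ∃ r₀ : ℕ, ∀ r, r₀ ≤ r → ∀ S : Multiset ℕ, (∀ m ∈ S, 1 ≤ m ∧ m ≤ M) →
      KillAt (2 * M - 1) J r S := by
  obtain ⟨ε₀, hε₀, r₁, h1⟩ := hcr
  obtain ⟨ε, hε⟩ : ∃ ε : ℝ, ε = min ε₀ 1 := ⟨_, rfl⟩
  have hε0 : 0 < ε := by rw [hε]; exact lt_min hε₀ one_pos
  have hεε : ε ≤ ε₀ := by rw [hε]; exact min_le_left _ _
  have hε1 : ε ≤ 1 := by rw [hε]; exact min_le_right _ _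
  obtain ⟨r₂, h2⟩ := hLK (ε / 2) (by positivity)
  obtain ⟨r₃, h3⟩ := Pool.Agent.H74.V7.ell_small M hM (ε / 8) (by positivity)
  obtain ⟨r₄, h4⟩ := NJ_ge (2 * M - 1) J (fun i => (hJ i).2) (ε / 8) (by positivity)
  refine ⟨r₁ + r₂ + r₃ + r₄ + K + 1, fun r hr S hS => ?_⟩
  obtain ⟨N, hN⟩ : ∃ N, N = (2 * M - 1 + r).choose r := ⟨_, rfl⟩
  obtain ⟨ℓ, hℓ⟩ : ∃ ℓ, ℓ = ell r M := ⟨_, rfl⟩
  have hNe : ell r (2 * M - 1 + 1) = N := by
    rw [hN]
    unfold ell
    rw [show 2 * M - 1 + 1 + r - 1 = 2 * M - 1 + r by omega]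
  obtain ⟨W, hW⟩ : ∃ W : ℕ → ℕ, W = fun m => NJ (2 * M - 1) J (r + 1) (m - 1) := ⟨_, rfl⟩
  obtain ⟨NJd, hNJ⟩ : ∃ X : ℕ, X = NJ (2 * M - 1) J (r + 1) (2 * M - 1) := ⟨_, rfl⟩
  have hWd : W (2 * M - 1 + 1) = NJd := by
    rw [hW, hNJ]
    show NJ (2 * M - 1) J (r + 1) (2 * M - 1 + 1 - 1) = _
    rw [Nat.add_sub_cancel]
  have hsmall : (ℓ : ℝ) ≤ ε / 8 * N := by
    rw [hℓ, hN]
    exact h3 r (by omega)
  have hlo : ∀ m, 1 ≤ m → m ≤ 2 * M - 1 + 1 → (1 - ε / 8) * (ell r m : ℝ) ≤ (W m : ℝ) := by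
    intro m hm hm'
    rw [hW]
    exact h4 r (by omega) m hm hm'
  have hup : ∀ m, 1 ≤ m → W m ≤ ell r m := by
    intro m hm
    rw [hW]
    exact NJ_le_ell (2 * M - 1) J r m (by omega) hm
  have hN1 : (0 : ℝ) < N := by
    have : 0 < (2 * M - 1 + r).choose r := Nat.choose_pos (by omega)
    rw [hN]
    exact_mod_cast this
  have hNup : (NJd : ℝ) ≤ N := by
    have h5 := hup (2 * M - 1 + 1) (by omega)
    rw [hWd, hNe] at h5
    exact_mod_cast h5
  have hNlo : (1 - ε / 8) * N ≤ (NJd : ℝ) := by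
    have h5 := hlo (2 * M - 1 + 1) (by omega) le_rfl
    rw [hWd, hNe] at h5
    exact h5
  have hWup : (W M : ℝ) ≤ ℓ := by
    have h5 := hup M hM
    rw [← hℓ] at h5
    exact_mod_cast h5
  have hWlo : (1 - ε / 8) * ℓ ≤ (W M : ℝ) := by
    have h5 := hlo M hM (by omega)
    rw [← hℓ] at h5
    exact h5
  have hℓpos : 1 ≤ ℓ := by
    rw [hℓ]
    exact Pool.Agent.H18.Ex.ell_pos r hM
  have hℓpos' : (1 : ℝ) ≤ ℓ := by exact_mod_cast hℓpos
  have hWpos : 0 < W M := by
    have h5 : (0 : ℝ) < W M := by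
      refine lt_of_lt_of_le ?_ hWlo
      have : 0 < 1 - ε / 8 := by linarith
      positivity
    exact_mod_cast h5
  have hcrit : ∀ S' : Multiset ℕ, S' ≤ S →
      |((S'.count M * ℓ : ℕ) : ℝ) - N| ≤ ε * N →
      ((((S'.filter fun m => m < M).map (ell r)).sum : ℕ) : ℝ) ≤ ε * N →
      NJd ≤ (S'.map W).sum → KillAt (2 * M - 1) J r S := by
    intro S' hS' h5 h6 h7
    rw [hN, hℓ] at h5
    rw [hN] at h6
    rw [hNJ, hW] at h7
    have hC : (0 : ℝ) ≤ ((2 * M - 1 + r).choose r : ℝ) := Nat.cast_nonneg _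
    exact Kill_mono hS' (h1 r (by omega) S' (fun m hm => hS m (Multiset.mem_of_le hS' hm))
      (h5.trans (mul_le_mul_of_nonneg_right hεε hC))
      (h6.trans (mul_le_mul_of_nonneg_right hεε hC))) h7
  obtain ⟨a, ha⟩ : ∃ a, a = S.count M := ⟨_, rfl⟩
  by_cases hlow : ((a * ℓ : ℕ) : ℝ) ≤ (1 - ε / 2) * N
  · refine h2 r (by omega) S hS ?_
    rw [← ha, ← hℓ, ← hN]
    exact hlow
  push Not at hlow
  have hδ1 : 0 < 1 - ε / 8 := by linarith
  have hrep : ∀ t, t ≤ a → Multiset.replicate t M ≤ S := by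
    intro t ht
    rw [← Multiset.le_count_iff_replicate_le, ← ha]
    exact ht
  by_cases hover : NJd ≤ a * W M
  · -- enough points of multiplicity `M`
    obtain ⟨t, ht1, ht2⟩ : ∃ t, NJd ≤ t * W M ∧ t * W M ≤ NJd + W M ∧ t ≤ a := by
      by_cases h5 : NJd / W M + 1 ≤ a
      · refine ⟨NJd / W M + 1, ?_, ?_, h5⟩
        · have := Nat.lt_div_mul_add (a := NJd) hWpos
          rw [Nat.add_mul, Nat.one_mul]
          exact this.le
        · have := Nat.div_mul_le_self NJd (W M)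
          rw [Nat.add_mul, Nat.one_mul]
          omega
      · refine ⟨a, hover, ?_, le_rfl⟩
        have h6 : a ≤ NJd / W M := by omega
        have h7 := Nat.mul_le_mul_right (W M) h6
        have h8 := Nat.div_mul_le_self NJd (W M)
        omega
    obtain ⟨ht2, ht3⟩ := ht2
    have ht1' : (NJd : ℝ) ≤ t * W M := by exact_mod_cast ht1
    have ht2' : (t : ℝ) * W M ≤ NJd + W M := by exact_mod_cast ht2
    refine hcrit (Multiset.replicate t M) (hrep t ht3) ?_ ?_ ?_
    · rw [Multiset.count_replicate_self, abs_le]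
      have h5 : (t : ℝ) * W M ≤ t * ℓ := by gcongr
      have h6 : (1 - ε / 8) * (t * ℓ) ≤ t * W M := by
        have := mul_le_mul_of_nonneg_left hWlo (Nat.cast_nonneg (α := ℝ) t)
        linarith
      push_cast
      constructor
      · nlinarith
      · have h7 : (1 - ε / 8) * (t * ℓ) ≤ (1 + ε / 8) * N := by linarith
        have h8 : (1 + ε / 8) ≤ (1 - ε / 8) * (1 + ε) := by nlinarith
        have h9 : (1 - ε / 8) * (t * ℓ) ≤ (1 - ε / 8) * ((1 + ε) * N) := by
          have := mul_le_mul_of_nonneg_right h8 hN1.le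
          linarith
        have h10 := le_of_mul_le_mul_left h9 hδ1
        linarith
    · rw [Multiset.filter_eq_nil.2 fun m hm => by
        rw [Multiset.eq_of_mem_replicate hm]
        exact lt_irrefl M]
      rw [Multiset.map_zero, Multiset.sum_zero, Nat.cast_zero]
      positivity
    · rw [Multiset.map_replicate, Multiset.sum_replicate, smul_eq_mul]
      exact ht1
  · push Not at hover
    have hover' : (a : ℝ) * W M ≤ NJd := by exact_mod_cast hover.le
    have haℓ : (a : ℝ) * ℓ ≤ (1 + ε) * N := by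
      have h6 : (1 - ε / 8) * (a * ℓ) ≤ a * W M := by
        have := mul_le_mul_of_nonneg_left hWlo (Nat.cast_nonneg (α := ℝ) a)
        linarith
      have h8 : 1 ≤ (1 - ε / 8) * (1 + ε) := by nlinarith
      have h9 : (1 - ε / 8) * (a * ℓ) ≤ (1 - ε / 8) * ((1 + ε) * N) := by
        have := mul_le_mul_of_nonneg_right h8 hN1.le
        linarith
      exact le_of_mul_le_mul_left h9 hδ1
    have hlow' : (1 - ε / 2) * N < (a : ℝ) * ℓ := by exact_mod_cast hlow
    have habs : |((a * ℓ : ℕ) : ℝ) - N| ≤ ε * N := by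
      rw [abs_le]
      push_cast
      constructor <;> nlinarith
    by_cases hQ : ((((S.filter fun m => m < M).map (ell r)).sum : ℕ) : ℝ) ≤ ε * N
    · intro h5
      rw [← hNJ] at h5
      refine hcrit S le_rfl ?_ hQ ?_ ?_
      · rw [← ha]
        exact habs
      · rw [hW]
        exact h5
      · rw [← hNJ]
        exact h5
    · push Not at hQ
      obtain ⟨T, hT, hT1, hT2⟩ := Kill_sub (t := ε * N) (ℓ := ℓ) (by positivity)
        (S.filter fun m => m < M) (fun m hm => by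
          rw [hℓ]
          exact Pool.Agent.H18.Ex.ell_mono r (hS m (Multiset.mem_of_le (Multiset.filter_le _ _) hm)).2)
        hQ
      have hTM : ∀ m ∈ T, m < M := fun m hm => (Multiset.mem_filter.1 (Multiset.mem_of_le hT hm)).2
      have hTS : ∀ m ∈ T, 1 ≤ m ∧ m ≤ M := fun m hm =>
        hS m (Multiset.mem_of_le (Multiset.filter_le _ _) (Multiset.mem_of_le hT hm))
      have hT0 : T.count M = 0 := Multiset.count_eq_zero_of_notMem fun h =>
        absurd (hTM M h) (lt_irrefl M)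
      have hle : Multiset.replicate a M + T ≤ S := by
        have h5 : Multiset.replicate a M ≤ S.filter fun m => ¬ m < M := by
          rw [Multiset.le_filter]
          refine ⟨hrep a le_rfl, fun m hm => ?_⟩
          rw [Multiset.eq_of_mem_replicate hm]
          exact lt_irrefl M
        have h6 := Multiset.filter_add_not (fun m => m < M) S
        rw [← h6, add_comm]
        exact add_le_add hT h5
      refine hcrit (Multiset.replicate a M + T) hle ?_ ?_ ?_
      · rw [Multiset.count_add, Multiset.count_replicate_self, hT0, add_zero]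
        exact habs
      · rw [Multiset.filter_add, Multiset.filter_eq_nil.2 fun m hm => by
          rw [Multiset.eq_of_mem_replicate hm]
          exact lt_irrefl M]
        rw [zero_add, Multiset.filter_eq_self.2 hTM]
        exact hT1
      · have h5 := Kill_sum_le (f := ell r) (g := W) (δ := ε / 8) T fun m hm =>
          hlo m (hTS m hm).1 (by have := (hTS m hm).2; omega)
        have h6 : (1 - ε / 8) * (a * ℓ) ≤ a * W M := by
          have := mul_le_mul_of_nonneg_left hWlo (Nat.cast_nonneg (α := ℝ) a)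
          linarith
        rw [Multiset.map_add, Multiset.sum_add, Multiset.map_replicate, Multiset.sum_replicate,
          smul_eq_mul]
        have h7 : (NJd : ℝ) ≤ ((a * W M + (T.map W).sum : ℕ) : ℝ) := by
          push_cast
          refine hNup.trans ?_
          have h8 : (1 + 3 * ε / 8) * N ≤ a * ℓ + (((T.map (ell r)).sum : ℕ) : ℝ) := by
            nlinarith
          have h9 : (1 : ℝ) ≤ (1 - ε / 8) * (1 + 3 * ε / 8) := by nlinarith
          have h10 : (1 - ε / 8) * ((1 + 3 * ε / 8) * N) ≤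
              (1 - ε / 8) * (a * ℓ + (((T.map (ell r)).sum : ℕ) : ℝ)) :=
            mul_le_mul_of_nonneg_left h8 hδ1.le
          have h11 : (N : ℝ) ≤ (1 - ε / 8) * ((1 + 3 * ε / 8) * N) := by
            have := mul_le_mul_of_nonneg_right h9 hN1.le
            linarith
          have h12 : (1 - ε / 8) * (a * ℓ + (((T.map (ell r)).sum : ℕ) : ℝ)) =
              (1 - ε / 8) * (a * ℓ) + (1 - ε / 8) * (((T.map (ell r)).sum : ℕ) : ℝ) := by ring
          rw [h12] at h10
          push_cast at h5 h10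
          linarith
        exact_mod_cast h7

end Pool.Agent.V8
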