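import Pool.Agent.V8.Final
import Pool.Agent.V8.End.Fin
import Pool.Agent.V8.End.Kill
import Pool.Agent.LK.Final

/-!
# V8: the exact dimension if boundedly many points have multiplicity `> (d + 1) / 2`
-/

set_option autoImplicit false

namespace Pool.Agent.V8

open Finset MvPolynomial Pool.Agent.H18.Fat Pool.Agent.H21.HD Pool.Agent.H21.NX
open Pool.Agent.H18.Ex (Kind ell GM)

private theorem All_choose (r d : ℕ) : (d + r).choose r = ell r (d + 1) := by
  unfold ell
  rw [show d + 1 + r - 1 = d + r by omega]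

/-- The number of exponents of degree `1` is at least `n - K`. -/
private theorem All_NJ_one {K : ℕ} (J : Fin K → ℕ) (hJ : ∀ i, J i ≤ 1) (n : ℕ) :
    n - K ≤ NJ 1 J n 1 := by
  classical
  unfold NJ
  have h1 : (fun _ : Fin K => 0) ∈ (BxJ 1 J).filter fun b => ∑ i, b i ≤ 1 := by
    rw [mem_filter]
    exact ⟨(dn_BxJ hJ).zero, by simp⟩
  have h2 := Finset.single_le_sum
    (f := fun b : Fin K → ℕ => Nat.multichoose (n - K) (1 - ∑ i, b i))
    (fun _ _ => Nat.zero_le _) h1
  refine le_trans (le_of_eq ?_) h2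
  simp

/-- Degree `1`. -/
private theorem All_one {K : ℕ} (J : Fin K → ℕ) (hJ : ∀ i, 1 ≤ J i ∧ J i ≤ 1) (r : ℕ)
    (S : Multiset ℕ) (hS : ∀ m ∈ S, 1 ≤ m ∧ 2 * m ≤ 1 + 1) : KillAt 1 J r S := by
  classical
  intro h
  have hS1 : S = Multiset.replicate (Multiset.card S) 1 := by
    apply Multiset.eq_replicate_card.2
    intro m hm
    have := hS m hm
    omega
  have h1 : (S.map fun m => NJ 1 J (r + 1) (m - 1)).sum = Multiset.card S := by
    rw [hS1, Multiset.map_replicate, Multiset.sum_replicate, Multiset.card_replicate, Nat.sub_self,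
      NJ_zero 1 J (fun i => (hJ i).2), smul_eq_mul, mul_one]
  have h2 := All_NJ_one J (fun i => (hJ i).2) (r + 1)
  have h3 : (Sx (Fin (r + 1)) 1).card = r + 1 := by
    rw [card_Sx]
    unfold ell
    rw [show 1 + 1 + r - 1 = r + 1 by omega, Nat.choose_succ_self_right]
  have h4 := Pool.Agent.H18.Ex.GM.of_card (Sx (Fin (r + 1)) 1)
    ((univ : Finset (Fin K)).val.map J + S) 0 (by
      intro m hm
      rw [Multiset.mem_add] at hm
      rcases hm with hm | hm
      · obtain ⟨i, _, rfl⟩ := Multiset.mem_map.1 hm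
        exact (hJ i).1
      · exact (hS m hm).1) (by
      rw [h3, Multiset.card_add, Multiset.card_map, Finset.card_val, card_univ, Fintype.card_fin]
      omega)
  rw [add_zero, Multiset.map_add] at h4
  exact h4

/-- All configurations with points of the multiplicities `J` and points with `2 m ≤ d + 1`. -/
theorem kill_every (d : ℕ) {K : ℕ} (J : Fin K → ℕ) (hJ : ∀ i, 1 ≤ J i ∧ J i ≤ d) :
    ∃ r₀ : ℕ, ∀ r, r₀ ≤ r → ∀ S : Multiset ℕ, (∀ m ∈ S, 1 ≤ m ∧ 2 * m ≤ d + 1) →
      KillAt d J r S := by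
  rcases Nat.even_or_odd d with ⟨c, hc⟩ | ⟨c, hc⟩
  · -- even degree
    obtain ⟨r₀, h⟩ := Pool.Agent.LK.noncrit d K J (fun i => (hJ i).2) 1 one_pos
    exact ⟨r₀, fun r hr S hS hkill => h r hr S hS (fun M hM => absurd hM (by omega)) hkill⟩
  · -- odd degree
    obtain ⟨M, hM⟩ : ∃ M, M = c + 1 := ⟨_, rfl⟩
    have hd : d = 2 * M - 1 := by omega
    rcases Nat.lt_or_ge M 2 with h1 | h1
    · have hd1 : d = 1 := by omega
      subst hd1
      exact ⟨0, fun r _ S hS => All_one J hJ r S hS⟩
    · obtain ⟨r₀, h⟩ := kill_all M (by omega) J (by rw [← hd]; exact hJ)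
        (critJ M h1 J (by rw [← hd]; exact fun i => (hJ i).2)) (fun η hη => by
          obtain ⟨r₁, h2⟩ := Pool.Agent.LK.noncrit d K J (fun i => (hJ i).2) η hη
          refine ⟨r₁, fun r hr S hS hcount => ?_⟩
          rw [← hd]
          refine h2 r hr S (fun m hm => ⟨(hS m hm).1, by have := (hS m hm).2; omega⟩) fun M' hM' => ?_
          have hMM : M' = M := by omega
          rw [hMM]
          rw [← hd, All_choose] at hcount
          exact hcount)
      refine ⟨r₀, fun r hr S hS => ?_⟩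
      have h3 := h r hr S (fun m hm => ⟨(hS m hm).1, by have := (hS m hm).2; omega⟩)
      rw [← hd] at h3
      exact h3

/-- The exact dimension if at most `K` points have multiplicity `> (d + 1) / 2`. -/
theorem exact_dim (d K : ℕ) : ∃ r₀ : ℕ, ∀ r, r₀ ≤ r → ∀ (k : ℕ) (m : Fin k → ℕ),
    (∀ i, 1 ≤ m i ∧ m i ≤ d) → (univ.filter fun i => d + 1 < 2 * m i).card ≤ K →
      ForGeneralPoints r k fun p => (Module.finrank ℂ (fatForms r d p m) : ℤ) =
        max (fro r (fun i => d + 1 - m i) univ d) 0 :=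
  many_large d K fun _ _ J hJ => kill_every d J hJ

end Pool.Agent.V8
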