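import Pool.Agent.V8.Bridge

/-!
# V8, the end: the shape in which the two halves are used
-/

set_option autoImplicit false

namespace Pool.Agent.V8

open Finset Pool.Agent.H21.NX
open Pool.Agent.H18.Ex (Kind GM)

/-- The points of the multiplicities `J` and `S` kill all forms of degree `d` if `S` has enough conditions. -/
def KillAt (d : ℕ) {K : ℕ} (J : Fin K → ℕ) (r : ℕ) (S : Multiset ℕ) : Prop :=
  NJ d J (r + 1) d ≤ (S.map fun m => NJ d J (r + 1) (m - 1)).sum →
    GM (Sx (Fin (r + 1)) d) (((univ : Finset (Fin K)).val.map J).map Kind.free + S.map Kind.free)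

end Pool.Agent.V8
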